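import Mathlib
import Pool.Agent.Lib.MP_09e2fc_co.Defs
import Pool.Agent.Lib.MP_09e2fc_co.Example

/-!
# The Hanani–Tutte characterization of simultaneous embeddings fails for independent edges

There are two graphs on eight vertices whose union has a drawing in which two independent edges
cross oddly only if they are exclusive edges of different graphs, but which do not admit a
simultaneous embedding with fixed edges, although their shared graph is a spanning tree.

Shared edges: `01, 02, 03, 04, 15, 16, 17`; exclusive edges of the first graph: `25, 36, 47`;
exclusive edges of the second graph: `26, 37, 45`.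
-/

namespace Pool.Agent.Results.MP_09e2fc_co.IndependentVersionFails

open Pool.Agent.Lib.MP_09e2fc_co

instance : DecidableRel (exG1 ⊓ exG2).Adj := fun u v =>
  inferInstanceAs (Decidable (memL (edS ++ ed1) u v = true ∧ memL (edS ++ ed2) u v = true))

theorem shared_isTree : (exG1 ⊓ exG2).IsTree := by
  rw [SimpleGraph.isTree_iff_connected_and_card]
  constructor
  · have h : ∀ v, (exG1 ⊓ exG2).Reachable 0 v := by
      have a1 : (exG1 ⊓ exG2).Adj 0 1 := by decide
      have a2 : (exG1 ⊓ exG2).Adj 0 2 := by decide
      have a3 : (exG1 ⊓ exG2).Adj 0 3 := by decide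
      have a4 : (exG1 ⊓ exG2).Adj 0 4 := by decide
      have a5 : (exG1 ⊓ exG2).Adj 1 5 := by decide
      have a6 : (exG1 ⊓ exG2).Adj 1 6 := by decide
      have a7 : (exG1 ⊓ exG2).Adj 1 7 := by decide
      intro v
      fin_cases v
      · exact SimpleGraph.Reachable.refl _
      · exact a1.reachable
      · exact a2.reachable
      · exact a3.reachable
      · exact a4.reachable
      · exact a1.reachable.trans a5.reachable
      · exact a1.reachable.trans a6.reachable
      · exact a1.reachable.trans a7.reachable
    exact ⟨fun u v => (h u).symm.trans (h v)⟩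
  · rw [Nat.card_eq_fintype_card, Nat.card_eq_fintype_card, ← SimpleGraph.edgeFinset_card]
    decide +kernel

/-- There are two graphs `G₁`, `G₂` on eight vertices, whose shared graph is a spanning tree, such
that `G₁ ∪ G₂` has a drawing in which any two independent edges that cross oddly are exclusive
edges of different graphs, but `G₁` and `G₂` do not admit a simultaneous embedding with fixed
edges. -/
theorem result : ∃ G₁ G₂ : SimpleGraph (Fin 8), (G₁ ⊓ G₂).IsTree ∧
    (∃ D : Drawing (G₁ ⊔ G₂), ∀ d d', Independent d d' → Odd (D.crossings d d') →
      ExclusivePair G₁ G₂ d d') ∧ ¬ HasSefe G₁ G₂ :=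
  ⟨exG1, exG2, shared_isTree, ⟨exDrawing, exDrawing_parity⟩, not_hasSefe⟩

end Pool.Agent.Results.MP_09e2fc_co.IndependentVersionFails
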