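import Mathlib
import Pool.Agent.Lib.MP_09e2fc_co.Defs
import Pool.Agent.Lib.MP_09e2fc_co.Literal

/-!
# The Hanani–Tutte characterization of simultaneous embeddings, for all pairs of edges

If `G₁ ∪ G₂` has a drawing in which any two edges (adjacent or not) that cross oddly are exclusive
edges of different graphs, then `G₁` and `G₂` admit a simultaneous embedding with fixed edges.
Moreover the embedding can be chosen with the cyclic order of the edges around every vertex
unchanged.
-/

namespace Pool.Agent.Results.MP_09e2fc_co.LiteralVersionHolds

open Pool.Agent.Lib.MP_09e2fc_co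

/-- If `D` is a drawing of `G₁ ∪ G₂` in which any two edges that cross oddly are exclusive edges of
different graphs, then `G₁` and `G₂` admit a simultaneous embedding with fixed edges; there is even
a drawing `D'` of `G₁ ∪ G₂` in which only exclusive edges of different graphs cross and the
edges around each vertex have the same cyclic order as in `D`. -/
theorem result {V : Type} [Finite V] (G₁ G₂ : SimpleGraph V) (D : Drawing (G₁ ⊔ G₂))
    (h : ∀ d d', Odd (D.crossings d d') → ExclusivePair G₁ G₂ d d') :
    HasSefe G₁ G₂ ∧
    ∃ D' : Drawing (G₁ ⊔ G₂), (∀ d, (D'.rot (inDart d)).dart = (D.rot (inDart d)).dart) ∧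
      ∀ d d', D'.crossings d d' ≠ 0 → ExclusivePair G₁ G₂ d d' := by
  obtain ⟨D', h1, h2⟩ := exists_sefe_of_parity D h
  exact ⟨⟨D', h2⟩, D', h1, h2⟩

end Pool.Agent.Results.MP_09e2fc_co.LiteralVersionHolds
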